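import Mathlib
import Pool.Agent.H18.Arbor

set_option autoImplicit false

namespace Pool.Agent.Results.MP_9fb0d9_nt.Q2

open Polynomial

/-- every critical point of `f` in the algebraic closure has finite forward orbit -/
def PCF (K : Type) [Field K] (f : K[X]) : Prop :=
  ∀ z : AlgebraicClosure K, aeval z (derivative f) = 0 →
    (Set.range fun n : ℕ => (fun x : AlgebraicClosure K => aeval x f)^[n] z).Finite

/-- the `n`-th iterate of `f` under composition -/
noncomputable def iter (K : Type) [Field K] (f : K[X]) (n : ℕ) : K[X] := (f.comp)^[n] X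

/-- `[K_n : K]` -/
noncomputable def degK (K : Type) [Field K] (f : K[X]) (n : ℕ) : ℕ :=
  Module.finrank K (iter K f n).SplittingField

/-- `f^n(x) - t` over `K(t)` -/
noncomputable def gen (K : Type) [Field K] (f : K[X]) (n : ℕ) : (RatFunc K)[X] :=
  (iter K f n).map (algebraMap K (RatFunc K)) - C RatFunc.X

/-- `[L_n : K(t)]` -/
noncomputable def degL (K : Type) [Field K] (f : K[X]) (n : ℕ) : ℕ :=
  Module.finrank (RatFunc K) (gen K f n).SplittingField

theorem result :
    ∃ (K : Type) (_ : Field K) (_ : NumberField K) (f : K[X]),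
      2 ≤ f.natDegree ∧ PCF K f ∧
      (∀ m : ℕ, 1 ≤ m → (fun x => eval x f)^[m] 0 ≠ 0) ∧
      ∀ M : ℕ, ∃ n : ℕ, 1 ≤ n ∧ M * degK K f n < degL K f n := by
  refine ⟨ℚ, inferInstance, inferInstance, H18.Arbor.ff, H18.Arbor.ff_deg.ge, ?_,
    H18.Arbor.not_per, H18.Arbor.unbounded _⟩
  intro z hz
  have h1 : z = 1 := by
    simp [H18.Arbor.ff, derivative_pow] at hz
    exact sub_eq_zero.mp hz
  subst h1
  apply (Set.finite_singleton (1 : AlgebraicClosure ℚ)).subset
  rintro _ ⟨n, rfl⟩
  exact Function.iterate_fixed (by simp [H18.Arbor.ff]) n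

end Pool.Agent.Results.MP_9fb0d9_nt.Q2
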